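import Pool.Agent.W622.ETC.Stm
set_option autoImplicit false

/-!
# Project ELT: AGI, case B, the blocks are not independent
-/

namespace Pool.Agent.W571.ELT

open Pool.Agent.W622.ETC Module

theorem t_AGI (hLU : S_LU) (hDEC : S_DEC) (hBNT : S_BNT) (hELI : S_ELI) (hCB1 : S_CB1)
    (hL2 : S_L2) : S_AGI := by
  intro V _ _ _ A hCB hGood hind
  have hMC := hCB.mc
  have hAlt := hMC.alt
  -- the set of blocks is nonempty
  have hne : ∃ X, Block A X := by
    by_contra hno
    push Not at hno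
    apply hMC.nel
    refine hL2 V A hAlt hMC.her.linked ?_
    intro b hb ω hω hωb
    have h1 := (hCB1 V A b hCB hb).1.2.1
    have h2 : BL A b = ∅ := by
      ext F
      constructor
      · intro hF
        exact absurd hF.1 (hno F)
      · intro hF
        exact absurd hF (Set.notMem_empty F)
    have h3 : ω ∈ res A (ann b) := (mem_res_ann hAlt).2 ⟨hω, hωb⟩
    rw [h1, h2] at h3
    simpa using h3
  -- degenerate members
  have hdeg : ∀ ζ ∈ A, ∀ b : V, b ≠ 0 → ζ b = 0 → ζ ∈ ⨆ X ∈ {X | Block A X}, res A X := by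
    intro ζ hζ b hb hζb
    have h1 := (hCB1 V A b hCB hb).1.2.1
    have h3 : ζ ∈ res A (ann b) := (mem_res_ann hAlt).2 ⟨hζ, hζb⟩
    rw [h1] at h3
    have h4 : (⨆ X ∈ BL A b, res (res A (ann b)) X) ≤ ⨆ X ∈ {X | Block A X}, res A X := by
      refine iSup₂_le (fun X hX => ?_)
      exact (res_mono_left (res_le A (ann b)) X).trans
        (le_iSup₂ (f := fun (X : DSub V) (_ : X ∈ {X | Block A X}) => res A X) X hX.1)
    exact h4 h3
  have hA : A = ⨆ X ∈ {X | Block A X}, res A X := by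
    refine le_antisymm ?_ (iSup₂_le (fun X _ => res_le A X))
    intro ζ hζ
    obtain ⟨X, hX⟩ := hne
    have hXr : res A X ≤ ⨆ X ∈ {X | Block A X}, res A X :=
      le_iSup₂ (f := fun (X : DSub V) (_ : X ∈ {X | Block A X}) => res A X) X hX
    obtain ⟨π, hπ, hdis⟩ := (hDEC V A X hAlt).1 (hLU V (res A X) (hAlt.res X) (hMC.her.res X))
      (hGood X hX) ζ hζ
    have hsum : ζ + π ∈ A := A.add_mem hζ hπ.1
    have htop : sp (ζ + π) ≠ ⊤ := by
      intro h1
      rw [h1] at hdis
      exact (hBNT V A X hMC hX).2 (top_disjoint.1 hdis)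
    obtain ⟨b, hb, hb2⟩ := exists_ann htop
    have h2 : (ζ + π) b = 0 := (hAlt _ hsum).ker_iff_ann.2 hb2
    have h3 := hdeg _ hsum b hb h2
    have h4 := Submodule.add_mem _ h3 (hXr hπ)
    have h5 : ζ + π + π = ζ := Pool.Agent.W622.ETC.add_cancel' ζ π
    rw [h5] at h4
    exact h4
  exact hMC.nel (hELI V A _ hind (fun X hX => hMC.el X (hBNT V A X hMC hX).1) hA)

end Pool.Agent.W571.ELT
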