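import Pool.Agent.W622.ETC.Stm
set_option autoImplicit false

/-!
# Project ELT: BRO, families of elementary type give structures of elementary type
-/

namespace Pool.Agent.W571.ELT

open Pool.Agent.W622.ETC Pool.Agent.H315R3.ETC Module

/-! ### isomorphisms -/

theorem iso_of_bij (S T : QData) (f : S.G →* T.G) (hf : Function.Bijective f)
    (hneg : f S.neg = T.neg)
    (hq : ∀ a b c d, S.q a b = S.q c d ↔ T.q (f a) (f b) = T.q (f c) (f d)) : Iso S T :=
  ⟨MulEquiv.ofBijective f hf, hneg, hq⟩

/-- the trivial structure on a vector space -/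
def TT (U : Type) [AddCommGroup U] : QData := ⟨Multiplicative U, Unit, 1, fun _ _ => (), ()⟩

theorem iso_TT {U U' : Type} [AddCommGroup U] [AddCommGroup U'] (e : U ≃+ U') :
    Iso (TT U) (TT U') :=
  ⟨AddEquiv.toMultiplicative e, map_one _, fun _ _ _ _ => ⟨fun _ => rfl, fun _ => rfl⟩⟩

theorem elem_TT_fin (n : ℕ) : Elem (TT (Fin n → ZMod 2)) := by
  induction n with
  | zero =>
    refine Elem.iso L0 _ Elem.l0 ?_
    refine iso_of_bij L0 (TT (Fin 0 → ZMod 2)) (1 : Unit →* Multiplicative (Fin 0 → ZMod 2)) ?_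
      rfl (fun _ _ _ _ => ⟨fun _ => rfl, fun _ => rfl⟩)
    refine ⟨fun a b _ => rfl, fun b => ⟨(), ?_⟩⟩
    exact Subsingleton.elim (α := Multiplicative (Fin 0 → ZMod 2)) _ _
  | succ n ih =>
    refine Elem.iso _ _ (Elem.prod L10 _ Elem.l10 ih) ?_
    let f : (C2 × Multiplicative (Fin n → ZMod 2)) →* Multiplicative (Fin (n + 1) → ZMod 2) :=
      { toFun := fun x => Multiplicative.ofAdd (Fin.cons (Multiplicative.toAdd x.1)
          (Multiplicative.toAdd x.2) : Fin (n + 1) → ZMod 2)
        map_one' := by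
          apply Multiplicative.toAdd.injective
          funext i
          refine Fin.cases ?_ (fun i => ?_) i <;> rfl
        map_mul' := by
          intro x y
          apply Multiplicative.toAdd.injective
          funext i
          refine Fin.cases ?_ (fun i => ?_) i <;> rfl }
    have hf : Function.Bijective f := by
      constructor
      · intro x y hxy
        have h1 : (Fin.cons (Multiplicative.toAdd x.1) (Multiplicative.toAdd x.2) :
            Fin (n + 1) → ZMod 2) = Fin.cons (Multiplicative.toAdd y.1)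
              (Multiplicative.toAdd y.2) := hxy
        rw [Fin.cons_inj] at h1
        exact Prod.ext (Multiplicative.toAdd.injective h1.1)
          (Multiplicative.toAdd.injective h1.2)
      · intro y
        refine ⟨(Multiplicative.ofAdd ((Multiplicative.toAdd y : Fin (n + 1) → ZMod 2) 0),
          Multiplicative.ofAdd (Fin.tail (Multiplicative.toAdd y : Fin (n + 1) → ZMod 2))), ?_⟩
        apply Multiplicative.toAdd.injective
        exact Fin.cons_self_tail (Multiplicative.toAdd y : Fin (n + 1) → ZMod 2)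
    refine iso_of_bij (Pool.Agent.H315R3.ETC.prod L10 (TT (Fin n → ZMod 2)))
      (TT (Fin (n + 1) → ZMod 2)) f hf (map_one f) ?_
    intro a b c d
    exact ⟨fun _ => rfl, fun _ => rfl⟩

theorem elem_TT (U : Type) [AddCommGroup U] [Module (ZMod 2) U] [Finite U] : Elem (TT U) := by
  refine Elem.iso _ _ (elem_TT_fin (finrank (ZMod 2) U)) (iso_TT ?_)
  exact (Module.finBasis (ZMod 2) U).equivFun.symm.toAddEquiv

section
variable {V : Type} [AddCommGroup V] [Module (ZMod 2) V]

/-! ### restriction to a subspace -/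

/-- the restriction to a subspace -/
def QW (A : Fam V) (W : Submodule (ZMod 2) V) : QData where
  G := Multiplicative W
  Q := A → ZMod 2
  neg := 1
  q := fun a b ω => ω.1 ((Multiplicative.toAdd a : W) : V) ((Multiplicative.toAdd b : W) : V)
  zero := fun _ => 0

theorem QW_eq (A : Fam V) (W : Submodule (ZMod 2) V) (a b c d : Multiplicative W) :
    (QW A W).q a b = (QW A W).q c d ↔ ∀ ω ∈ A,
      ω ((Multiplicative.toAdd a : W) : V) ((Multiplicative.toAdd b : W) : V) =
      ω ((Multiplicative.toAdd c : W) : V) ((Multiplicative.toAdd d : W) : V) := by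
  constructor
  · intro h ω hω
    exact congrFun h ⟨ω, hω⟩
  · intro h
    funext ω
    exact h ω.1 ω.2

theorem elem_triv [Finite V] (A : Fam V) (W : Submodule (ZMod 2) V)
    (h : ∀ a ∈ W, ∀ b ∈ W, ∀ ω ∈ A, ω a b = 0) : Elem (QW A W) := by
  refine Elem.iso _ _ (elem_TT W) ?_
  refine iso_of_bij (TT W) (QW A W) (MonoidHom.id (Multiplicative W)) Function.bijective_id rfl ?_
  intro a b c d
  refine ⟨fun _ => ?_, fun _ => rfl⟩
  refine (QW_eq A W a b c d).2 (fun ω hω => ?_)
  rw [h _ (Multiplicative.toAdd a : W).2 _ (Multiplicative.toAdd b : W).2 ω hω,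
    h _ (Multiplicative.toAdd c : W).2 _ (Multiplicative.toAdd d : W).2 ω hω]

/-- the common kernel -/
def rad (A : Fam V) : Submodule (ZMod 2) V where
  carrier := {v | ∀ ω ∈ A, ω v = 0}
  add_mem' := by
    intro v w hv hw ω hω
    rw [map_add, hv ω hω, hw ω hω, add_zero]
  zero_mem' := by
    intro ω _
    rw [map_zero]
  smul_mem' := by
    intro c v hv ω hω
    rw [map_smul, hv ω hω, smul_zero]

theorem mem_rad {A : Fam V} {v : V} : v ∈ rad A ↔ ∀ ω ∈ A, ω v = 0 := Iff.rfl

/-- direct products -/
theorem iso_prod (A B : Fam V) (hA : AltFam A) (hB : AltFam B) (W₁ W₂ W : Submodule (ZMod 2) V)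
    (hsup : W₁ ⊔ W₂ = W) (hdis : Disjoint W₁ W₂) (h1 : W₂ ≤ rad A) (h2 : W₁ ≤ rad B) :
    Iso (Pool.Agent.H315R3.ETC.prod (QW A W₁) (QW B W₂)) (QW (A ⊔ B) W) := by
  have hl : W₁ ≤ W := hsup ▸ le_sup_left
  have hr : W₂ ≤ W := hsup ▸ le_sup_right
  let f : (Multiplicative W₁ × Multiplicative W₂) →* Multiplicative W :=
    { toFun := fun x => Multiplicative.ofAdd
        (⟨((Multiplicative.toAdd x.1 : W₁) : V) + ((Multiplicative.toAdd x.2 : W₂) : V),
          W.add_mem (hl (Multiplicative.toAdd x.1 : W₁).2)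
            (hr (Multiplicative.toAdd x.2 : W₂).2)⟩ : W)
      map_one' := by
        apply Multiplicative.toAdd.injective
        apply Subtype.ext
        change (0 : V) + 0 = 0
        rw [add_zero]
      map_mul' := by
        intro x y
        apply Multiplicative.toAdd.injective
        apply Subtype.ext
        change ((Multiplicative.toAdd x.1 : W₁) : V) + ((Multiplicative.toAdd y.1 : W₁) : V)
            + (((Multiplicative.toAdd x.2 : W₂) : V) + ((Multiplicative.toAdd y.2 : W₂) : V))
          = ((Multiplicative.toAdd x.1 : W₁) : V) + ((Multiplicative.toAdd x.2 : W₂) : V)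
            + (((Multiplicative.toAdd y.1 : W₁) : V) + ((Multiplicative.toAdd y.2 : W₂) : V))
        abel }
  have hf : Function.Bijective f := by
    constructor
    · rw [injective_iff_map_eq_one]
      intro x hx
      have h3 : ((Multiplicative.toAdd x.1 : W₁) : V) + ((Multiplicative.toAdd x.2 : W₂) : V) = 0 :=
        congrArg Subtype.val (congrArg Multiplicative.toAdd hx)
      have h4 : ((Multiplicative.toAdd x.1 : W₁) : V) = ((Multiplicative.toAdd x.2 : W₂) : V) :=
        Pool.Agent.W622.ETC.add_eq_zero'.1 h3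
      have h5 : ((Multiplicative.toAdd x.1 : W₁) : V) ∈ W₁ ⊓ W₂ :=
        ⟨(Multiplicative.toAdd x.1 : W₁).2, h4 ▸ (Multiplicative.toAdd x.2 : W₂).2⟩
      rw [hdis.eq_bot, Submodule.mem_bot] at h5
      have h6 : ((Multiplicative.toAdd x.2 : W₂) : V) = 0 := h4 ▸ h5
      exact Prod.ext (Multiplicative.toAdd.injective (Subtype.ext h5))
        (Multiplicative.toAdd.injective (Subtype.ext h6))
    · intro y
      have hy : ((Multiplicative.toAdd y : W) : V) ∈ W₁ ⊔ W₂ := by
        rw [hsup]
        exact (Multiplicative.toAdd y : W).2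
      obtain ⟨u, hu, v, hv, huv⟩ := Submodule.mem_sup.1 hy
      refine ⟨(Multiplicative.ofAdd (⟨u, hu⟩ : W₁), Multiplicative.ofAdd (⟨v, hv⟩ : W₂)), ?_⟩
      exact Multiplicative.toAdd.injective (Subtype.ext huv)
  have key : ∀ α ∈ A, ∀ β ∈ B, ∀ x y : Multiplicative W₁, ∀ x' y' : Multiplicative W₂,
      (α + β) ((Multiplicative.toAdd (f (x, x')) : W) : V)
        ((Multiplicative.toAdd (f (y, y')) : W) : V)
      = α ((Multiplicative.toAdd x : W₁) : V) ((Multiplicative.toAdd y : W₁) : V)
        + β ((Multiplicative.toAdd x' : W₂) : V) ((Multiplicative.toAdd y' : W₂) : V) := by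
    intro α hα β hβ x y x' y'
    change (α + β) (((Multiplicative.toAdd x : W₁) : V) + ((Multiplicative.toAdd x' : W₂) : V))
      (((Multiplicative.toAdd y : W₁) : V) + ((Multiplicative.toAdd y' : W₂) : V)) = _
    have k1 : α ((Multiplicative.toAdd x' : W₂) : V) = 0 := h1 (Multiplicative.toAdd x' : W₂).2 α hα
    have k2 : α ((Multiplicative.toAdd y' : W₂) : V) = 0 := h1 (Multiplicative.toAdd y' : W₂).2 α hα
    have k3 : β ((Multiplicative.toAdd x : W₁) : V) = 0 := h2 (Multiplicative.toAdd x : W₁).2 β hβ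
    have k4 : β ((Multiplicative.toAdd y : W₁) : V) = 0 := h2 (Multiplicative.toAdd y : W₁).2 β hβ
    have k5 : α ((Multiplicative.toAdd x : W₁) : V) ((Multiplicative.toAdd y' : W₂) : V) = 0 := by
      rw [(hA α hα).symm, k2]
      rfl
    have k6 : β ((Multiplicative.toAdd x' : W₂) : V) ((Multiplicative.toAdd y : W₁) : V) = 0 := by
      rw [(hB β hβ).symm, k4]
      rfl
    simp only [LinearMap.add_apply, map_add, k1, k3, k5, k6, LinearMap.zero_apply]
    ring
  have hq : ∀ (a₁ b₁ c₁ d₁ : Multiplicative W₁) (a₂ b₂ c₂ d₂ : Multiplicative W₂),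
      ((∀ ω ∈ A, ω ((Multiplicative.toAdd a₁ : W₁) : V) ((Multiplicative.toAdd b₁ : W₁) : V) =
          ω ((Multiplicative.toAdd c₁ : W₁) : V) ((Multiplicative.toAdd d₁ : W₁) : V)) ∧
        (∀ ω ∈ B, ω ((Multiplicative.toAdd a₂ : W₂) : V) ((Multiplicative.toAdd b₂ : W₂) : V) =
          ω ((Multiplicative.toAdd c₂ : W₂) : V) ((Multiplicative.toAdd d₂ : W₂) : V))) ↔
      ∀ ω ∈ A ⊔ B, ω ((Multiplicative.toAdd (f (a₁, a₂)) : W) : V)
        ((Multiplicative.toAdd (f (b₁, b₂)) : W) : V) =
        ω ((Multiplicative.toAdd (f (c₁, c₂)) : W) : V)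
        ((Multiplicative.toAdd (f (d₁, d₂)) : W) : V) := by
    intro a₁ b₁ c₁ d₁ a₂ b₂ c₂ d₂
    constructor
    · rintro ⟨g1, g2⟩ ω hω
      obtain ⟨α, hα, β, hβ, rfl⟩ := Submodule.mem_sup.1 hω
      rw [key α hα β hβ, key α hα β hβ, g1 α hα, g2 β hβ]
    · intro g
      constructor
      · intro α hα
        have h3 := g (α + 0) (Submodule.add_mem_sup hα B.zero_mem)
        rw [key α hα 0 B.zero_mem, key α hα 0 B.zero_mem] at h3
        simpa using h3
      · intro β hβ
        have h3 := g (0 + β) (Submodule.add_mem_sup A.zero_mem hβ)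
        rw [key 0 A.zero_mem β hβ, key 0 A.zero_mem β hβ] at h3
        simpa using h3
  refine iso_of_bij (Pool.Agent.H315R3.ETC.prod (QW A W₁) (QW B W₂)) (QW (A ⊔ B) W) f hf
    (map_one f) ?_
  rintro ⟨a₁, a₂⟩ ⟨b₁, b₂⟩ ⟨c₁, c₂⟩ ⟨d₁, d₂⟩
  have e0 : ((Pool.Agent.H315R3.ETC.prod (QW A W₁) (QW B W₂)).q (a₁, a₂) (b₁, b₂) =
      (Pool.Agent.H315R3.ETC.prod (QW A W₁) (QW B W₂)).q (c₁, c₂) (d₁, d₂)) ↔
      ((QW A W₁).q a₁ b₁ = (QW A W₁).q c₁ d₁ ∧ (QW B W₂).q a₂ b₂ = (QW B W₂).q c₂ d₂) :=
    Prod.mk_inj
  exact e0.trans ((and_congr (QW_eq A W₁ a₁ b₁ c₁ d₁) (QW_eq B W₂ a₂ b₂ c₂ d₂)).trans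
    ((hq a₁ b₁ c₁ d₁ a₂ b₂ c₂ d₂).trans
      (QW_eq (A ⊔ B) W (f (a₁, a₂)) (f (b₁, b₂)) (f (c₁, c₂)) (f (d₁, d₂))).symm))

theorem pw_eq {W : Submodule (ZMod 2) V} (a : Multiplicative W) (β : C2) :
    pw a β = Multiplicative.ofAdd ((Multiplicative.toAdd β : ZMod 2) • (Multiplicative.toAdd a : W)) := by
  unfold pw
  rcases z01 (Multiplicative.toAdd β : ZMod 2) with h | h
  · have h1 : β = 1 := Multiplicative.toAdd.injective h
    rw [if_pos h1, h, zero_smul]
    rfl
  · have h1 : β ≠ 1 := by
      intro h2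
      rw [h2] at h
      exact absurd h (by decide)
    rw [if_neg h1, h, one_smul]
    rfl

/-- group extensions -/
theorem iso_ext (A C : Fam V) (W₀ W : Submodule (ZMod 2) V) (x : V) (hx : x ∉ W₀)
    (hW : W = W₀ ⊔ Submodule.span (ZMod 2) {x})
    (hq : ∀ a ∈ W₀, ∀ b ∈ W₀, ∀ c ∈ W₀, ∀ d ∈ W₀, ∀ α β γ δ : ZMod 2,
      (∀ ω ∈ C, ω (a + α • x) (b + β • x) = ω (c + γ • x) (d + δ • x)) ↔
        ((∀ ω ∈ A, ω a b = ω c d) ∧ β • a + α • b = δ • c + γ • d)) :
    Iso (ext (QW A W₀)) (QW C W) := by
  have hl : W₀ ≤ W := hW ▸ le_sup_left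
  have hxW : x ∈ W := by
    rw [hW]
    exact Submodule.mem_sup_right (Submodule.mem_span_singleton_self x)
  let f : (Multiplicative W₀ × C2) →* Multiplicative W :=
    { toFun := fun u => Multiplicative.ofAdd
        (⟨((Multiplicative.toAdd u.1 : W₀) : V) + (Multiplicative.toAdd u.2 : ZMod 2) • x,
          W.add_mem (hl (Multiplicative.toAdd u.1 : W₀).2) (W.smul_mem _ hxW)⟩ : W)
      map_one' := by
        apply Multiplicative.toAdd.injective
        apply Subtype.ext
        change (0 : V) + (0 : ZMod 2) • x = 0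
        rw [zero_smul, add_zero]
      map_mul' := by
        intro u v
        apply Multiplicative.toAdd.injective
        apply Subtype.ext
        change ((Multiplicative.toAdd u.1 : W₀) : V) + ((Multiplicative.toAdd v.1 : W₀) : V)
            + ((Multiplicative.toAdd u.2 : ZMod 2) + (Multiplicative.toAdd v.2 : ZMod 2)) • x
          = ((Multiplicative.toAdd u.1 : W₀) : V) + (Multiplicative.toAdd u.2 : ZMod 2) • x
            + (((Multiplicative.toAdd v.1 : W₀) : V) + (Multiplicative.toAdd v.2 : ZMod 2) • x)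
        rw [add_smul]
        abel }
  have hf : Function.Bijective f := by
    constructor
    · rw [injective_iff_map_eq_one]
      intro u hu
      have h3 : ((Multiplicative.toAdd u.1 : W₀) : V)
          + (Multiplicative.toAdd u.2 : ZMod 2) • x = 0 :=
        congrArg Subtype.val (congrArg Multiplicative.toAdd hu)
      rcases z01 (Multiplicative.toAdd u.2 : ZMod 2) with h4 | h4
      · rw [h4, zero_smul, add_zero] at h3
        exact Prod.ext (Multiplicative.toAdd.injective (Subtype.ext h3))
          (Multiplicative.toAdd.injective h4)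
      · rw [h4, one_smul] at h3
        exfalso
        apply hx
        rw [← Pool.Agent.W622.ETC.add_eq_zero'.1 h3]
        exact (Multiplicative.toAdd u.1 : W₀).2
    · intro y
      have hy : ((Multiplicative.toAdd y : W) : V) ∈ W₀ ⊔ Submodule.span (ZMod 2) {x} := by
        rw [← hW]
        exact (Multiplicative.toAdd y : W).2
      obtain ⟨u, hu, v, hv, huv⟩ := Submodule.mem_sup.1 hy
      obtain ⟨α, rfl⟩ := Submodule.mem_span_singleton.1 hv
      refine ⟨(Multiplicative.ofAdd (⟨u, hu⟩ : W₀), Multiplicative.ofAdd α), ?_⟩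
      exact Multiplicative.toAdd.injective (Subtype.ext huv)
  have e2 : ∀ (a b : Multiplicative W₀) (α β : C2),
      ((Multiplicative.toAdd (pw (pw (1 : Multiplicative W₀) α) β * pw a β * pw b α) : W₀) : V)
        = (Multiplicative.toAdd β : ZMod 2) • ((Multiplicative.toAdd a : W₀) : V)
          + (Multiplicative.toAdd α : ZMod 2) • ((Multiplicative.toAdd b : W₀) : V) := by
    intro a b α β
    rw [pw_eq (1 : Multiplicative W₀) α, pw_eq _ β, pw_eq a β, pw_eq b α]
    change (Multiplicative.toAdd β : ZMod 2) • ((Multiplicative.toAdd α : ZMod 2) • (0 : V))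
      + (Multiplicative.toAdd β : ZMod 2) • ((Multiplicative.toAdd a : W₀) : V)
      + (Multiplicative.toAdd α : ZMod 2) • ((Multiplicative.toAdd b : W₀) : V) = _
    rw [smul_zero, smul_zero, zero_add]
  have hq' : ∀ (a b c d : Multiplicative W₀) (α β γ δ : C2),
      ((∀ ω ∈ A, ω ((Multiplicative.toAdd a : W₀) : V) ((Multiplicative.toAdd b : W₀) : V) =
          ω ((Multiplicative.toAdd c : W₀) : V) ((Multiplicative.toAdd d : W₀) : V)) ∧
        (pw (pw (1 : Multiplicative W₀) α) β * pw a β * pw b α
            = pw (pw (1 : Multiplicative W₀) γ) δ * pw c δ * pw d γ)) ↔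
      ∀ ω ∈ C, ω ((Multiplicative.toAdd (f (a, α)) : W) : V)
        ((Multiplicative.toAdd (f (b, β)) : W) : V) =
        ω ((Multiplicative.toAdd (f (c, γ)) : W) : V)
        ((Multiplicative.toAdd (f (d, δ)) : W) : V) := by
    intro a b c d α β γ δ
    have e3 := hq _ (Multiplicative.toAdd a : W₀).2 _ (Multiplicative.toAdd b : W₀).2 _
      (Multiplicative.toAdd c : W₀).2 _ (Multiplicative.toAdd d : W₀).2
      (Multiplicative.toAdd α) (Multiplicative.toAdd β) (Multiplicative.toAdd γ)
      (Multiplicative.toAdd δ)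
    refine Iff.trans ?_ e3.symm
    refine and_congr_right (fun _ => ?_)
    rw [← e2, ← e2]
    constructor
    · intro h
      rw [h]
    · intro h
      exact Multiplicative.toAdd.injective (Subtype.ext h)
  refine iso_of_bij (ext (QW A W₀)) (QW C W) f hf (map_one f) ?_
  rintro ⟨a, α⟩ ⟨b, β⟩ ⟨c, γ⟩ ⟨d, δ⟩
  have e0 : ∀ (a b c d : Multiplicative W₀) (α β γ δ : C2),
      ((ext (QW A W₀)).q (a, α) (b, β) = (ext (QW A W₀)).q (c, γ) (d, δ)) ↔
      ((QW A W₀).q a b = (QW A W₀).q c d ∧
        pw (pw (1 : Multiplicative W₀) α) β * pw a β * pw b α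
          = pw (pw (1 : Multiplicative W₀) γ) δ * pw c δ * pw d γ) :=
    fun _ _ _ _ _ _ _ _ => Prod.mk_inj
  exact (e0 a b c d α β γ δ).trans ((and_congr_left' (QW_eq A W₀ a b c d)).trans
    ((hq' a b c d α β γ δ).trans
      (QW_eq C W (f (a, α)) (f (b, β)) (f (c, γ)) (f (d, δ))).symm))

end

section
variable {V : Type} [AddCommGroup V] [Module (ZMod 2) V] [Finite V]

/-- the induction claim -/
def PP' (A : Fam V) : Prop := ∀ W : Submodule (ZMod 2) V, W ⊔ rad A = ⊤ → Elem (QW A W)

/-- reduction to complements -/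
theorem reduce (A : Fam V) (hA : AltFam A)
    (h : ∀ W : Submodule (ZMod 2) V, IsCompl W (rad A) → Elem (QW A W)) : PP' A := by
  intro W hW
  obtain ⟨K, hK⟩ := exists_isCompl (W ⊓ rad A)
  have h1 : W ⊓ K ⊔ W ⊓ rad A = W := by
    have : (K ⊔ W ⊓ rad A) ⊓ W = W ⊓ K ⊔ W ⊓ rad A := by
      rw [sup_comm K, sup_inf_assoc_of_le K (inf_le_left : W ⊓ rad A ≤ W), sup_comm, inf_comm K]
    rw [← this, sup_comm K, hK.sup_eq_top, top_inf_eq]
  have h2 : (W ⊓ K) ⊓ rad A = ⊥ := by
    rw [inf_right_comm]
    exact hK.inf_eq_bot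
  have h3 : (W ⊓ K) ⊔ rad A = ⊤ := by
    rw [eq_top_iff, ← hW]
    refine sup_le ?_ le_sup_right
    rw [← h1]
    refine sup_le ?_ (inf_le_right.trans le_sup_right)
    rw [h1]
    exact le_sup_left
  have h4 := h (W ⊓ K) ⟨disjoint_iff.2 h2, codisjoint_iff.2 h3⟩
  have h5 : Elem (QW (⊥ : Fam V) (W ⊓ rad A)) := by
    refine elem_triv _ _ ?_
    intro a _ b _ ω hω
    rw [(Submodule.mem_bot _).1 hω]
    rfl
  have hbot : AltFam (⊥ : Fam V) := by
    intro ω hω
    rw [(Submodule.mem_bot _).1 hω]
    exact Alt.zero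
  have h6 := iso_prod A ⊥ hA hbot (W ⊓ K) (W ⊓ rad A) W h1
    ((disjoint_iff.2 h2).mono_right inf_le_right) inf_le_right
    (by
      intro v _ ω hω
      rw [(Submodule.mem_bot _).1 hω]
      rfl)
  rw [sup_bot_eq] at h6
  exact Elem.iso _ _ (Elem.prod _ _ h4 h5) h6

omit [Finite V] in
theorem span_frm {ω η : Frm V} (h : η ∈ Submodule.span (ZMod 2) {ω}) : η = 0 ∨ η = ω := by
  obtain ⟨t, rfl⟩ := Submodule.mem_span_singleton.1 h
  rcases z01 t with h1 | h1
  · left
    rw [h1, zero_smul]
  · right
    rw [h1, one_smul]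

theorem el_alt {A : Fam V} (h : El A) : AltFam A := by
  induction h with
  | zero =>
    intro ω hω
    rw [(Submodule.mem_bot _).1 hω]
    exact Alt.zero
  | loc ω hω =>
    intro η hη
    rcases span_frm hη with rfl | rfl
    · exact Alt.zero
    · exact hω
  | prod A B _ _ _ ihA ihB =>
    intro ω hω
    obtain ⟨α, hα, β, hβ, rfl⟩ := Submodule.mem_sup.1 hω
    exact (ihA α hα).add (ihB β hβ)
  | cone A p Y _ _ _ ihA =>
    intro ω hω
    obtain ⟨α, hα, β, hβ, rfl⟩ := Submodule.mem_sup.1 hω
    obtain ⟨g, -, rfl⟩ := Submodule.mem_map.1 hβ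
    exact (ihA α hα).add (wd_alt p g)

/-- one form -/
theorem loc_case (ω : Frm V) (hω : Alt ω) : PP' (Submodule.span (ZMod 2) {ω}) := by
  have hAlt : AltFam (Submodule.span (ZMod 2) {ω}) := el_alt (El.loc ω hω)
  refine reduce _ hAlt ?_
  intro W hW
  have hωA : ω ∈ Submodule.span (ZMod 2) {ω} := Submodule.mem_span_singleton_self ω
  have hrad : ∀ v : V, v ∈ rad (Submodule.span (ZMod 2) {ω}) ↔ ω v = 0 := by
    intro v
    constructor
    · intro h
      exact h ω hωA
    · intro h η hη
      rcases span_frm hη with rfl | rfl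
      · rfl
      · exact h
  -- nondegeneracy
  have hnd : ∀ a ∈ W, (∀ b ∈ W, ω a b = 0) → a = 0 := by
    intro a ha h
    have h1 : ω a = 0 := by
      refine LinearMap.ext (fun v => ?_)
      have hv : v ∈ W ⊔ rad (Submodule.span (ZMod 2) {ω}) := by
        rw [hW.sup_eq_top]
        exact Submodule.mem_top
      obtain ⟨w, hw, r, hr, rfl⟩ := Submodule.mem_sup.1 hv
      rw [map_add, h w hw, zero_add, hω.symm, (hrad r).1 hr]
      rfl
    have h2 : a ∈ W ⊓ rad (Submodule.span (ZMod 2) {ω}) := ⟨ha, (hrad a).2 h1⟩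
    rw [hW.inf_eq_bot, Submodule.mem_bot] at h2
    exact h2
  by_cases hex : ∃ a ∈ W, ∃ b ∈ W, ω a b = 1
  · obtain ⟨a, ha, b, hb, hab⟩ := hex
    have hba : ω b a = 1 := by
      rw [hω.symm]
      exact hab
    have ha0 : a ≠ 0 := by
      rintro rfl
      rw [map_zero] at hab
      exact absurd hab (by simp)
    have hbn : b ∉ Submodule.span (ZMod 2) {a} := by
      intro h
      rcases span_one_mem.1 h with rfl | rfl
      · rw [map_zero] at hab
        exact absurd hab (by simp)
      · rw [hω] at hab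
        exact absurd hab (by simp)
    have hle : Submodule.span (ZMod 2) {a} ⊔ Submodule.span (ZMod 2) {b} ≤ W := by
      refine sup_le ?_ ?_
      · rw [Submodule.span_singleton_le_iff_mem]
        exact ha
      · rw [Submodule.span_singleton_le_iff_mem]
        exact hb
    by_cases hWe : W = Submodule.span (ZMod 2) {a} ⊔ Submodule.span (ZMod 2) {b}
    · -- dimension two
      have h1 : Elem (QW (⊥ : Fam V) (Submodule.span (ZMod 2) {a})) := by
        refine elem_triv _ _ ?_
        intro u _ v _ η hη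
        rw [(Submodule.mem_bot _).1 hη]
        rfl
      refine Elem.iso _ _ (Elem.ext _ h1) (iso_ext ⊥ _ _ W b hbn hWe ?_)
      have hval : ∀ u ∈ Submodule.span (ZMod 2) {a}, ∀ v ∈ Submodule.span (ZMod 2) {a},
          ∀ α β : ZMod 2, ω (u + α • b) (v + β • b) = ω b (β • u + α • v) := by
        intro u hu v hv α β
        have huv : ω u v = 0 := by
          rcases span_one_mem.1 hu with rfl | rfl
          · rw [map_zero]
            rfl
          · rcases span_one_mem.1 hv with rfl | rfl
            · rw [map_zero]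
            · exact hω _
        simp only [map_add, map_smul, LinearMap.add_apply, LinearMap.smul_apply, smul_eq_mul, huv,
          hω b, hω.symm u b]
        ring
      intro u hu v hv c hc d hd α β γ δ
      constructor
      · intro h
        refine ⟨fun η hη => ?_, ?_⟩
        · rw [(Submodule.mem_bot _).1 hη]
          rfl
        · have h2 := h ω hωA
          rw [hval u hu v hv, hval c hc d hd] at h2
          have h3 : β • u + α • v + (δ • c + γ • d) ∈ Submodule.span (ZMod 2) {a} :=
            Submodule.add_mem _ (Submodule.add_mem _ (Submodule.smul_mem _ _ hu)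
              (Submodule.smul_mem _ _ hv)) (Submodule.add_mem _ (Submodule.smul_mem _ _ hc)
              (Submodule.smul_mem _ _ hd))
          have h4 : ω b (β • u + α • v + (δ • c + γ • d)) = 0 := by
            rw [map_add, h2, zadd]
          rcases span_one_mem.1 h3 with h5 | h5
          · exact Pool.Agent.W622.ETC.add_eq_zero'.1 h5
          · rw [h5, hba] at h4
            exact absurd h4 (by simp)
      · rintro ⟨-, h⟩ η hη
        rcases span_frm hη with rfl | rfl
        · rfl
        · rw [hval u hu v hv, hval c hc d hd, h]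
    · -- local type
      refine Elem.loc _ ⟨?_, ?_, ?_, ?_, ?_⟩
      · -- quaternionic structure
        have hz : ∀ u v : Multiplicative W, (QW (Submodule.span (ZMod 2) {ω}) W).q u v =
            (QW (Submodule.span (ZMod 2) {ω}) W).zero ↔
            ω ((Multiplicative.toAdd u : W) : V) ((Multiplicative.toAdd v : W) : V) = 0 := by
          intro u v
          constructor
          · intro h
            exact congrFun h ⟨ω, hωA⟩
          · intro h
            funext η
            rcases span_frm η.2 with h1 | h1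
            · change η.1 _ _ = 0
              rw [h1]
              rfl
            · change η.1 _ _ = 0
              rw [h1]
              exact h
        have he : ∀ u v u' v' : Multiplicative W, (QW (Submodule.span (ZMod 2) {ω}) W).q u v =
            (QW (Submodule.span (ZMod 2) {ω}) W).q u' v' ↔
            ω ((Multiplicative.toAdd u : W) : V) ((Multiplicative.toAdd v : W) : V) =
            ω ((Multiplicative.toAdd u' : W) : V) ((Multiplicative.toAdd v' : W) : V) := by
          intro u v u' v'
          rw [QW_eq]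
          constructor
          · intro h
            exact h ω hωA
          · intro h η hη
            rcases span_frm hη with rfl | rfl
            · rfl
            · exact h
        refine ⟨?_, ?_, ?_, ?_, ?_⟩
        · intro u
          exact Multiplicative.toAdd.injective (vadd (V := W) _)
        · intro u
          refine (hz u _).2 ?_
          change ω ((Multiplicative.toAdd u : W) : V) ((0 : V) + ((Multiplicative.toAdd u : W) : V)) = 0
          rw [zero_add]
          exact hω _
        · intro u v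
          exact (he u v v u).2 (hω.symm _ _)
        · intro u v v'
          refine (he u v u v').trans (Iff.trans ?_ (hz u _).symm)
          change _ ↔ ω ((Multiplicative.toAdd u : W) : V)
            (((Multiplicative.toAdd v : W) : V) + ((Multiplicative.toAdd v' : W) : V)) = 0
          rw [map_add]
          exact Pool.Agent.W622.ETC.add_eq_zero'.symm
        · intro u v u' v' h
          have h1 := (he u v u' v').1 h
          rcases z01 (ω ((Multiplicative.toAdd u : W) : V) ((Multiplicative.toAdd v : W) : V))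
            with h0 | h0
          · refine ⟨1, (he _ _ _ _).2 ?_, (he _ _ _ _).2 ?_⟩
            · rw [h0]
              change 0 = ω ((Multiplicative.toAdd u : W) : V) (0 : V)
              rw [map_zero]
            · rw [← h1, h0]
              change 0 = ω ((Multiplicative.toAdd u' : W) : V) (0 : V)
              rw [map_zero]
          · rw [h0] at h1
            rcases z01 (ω ((Multiplicative.toAdd u' : W) : V) ((Multiplicative.toAdd v : W) : V))
              with h2 | h2
            · rcases z01 (ω ((Multiplicative.toAdd u : W) : V)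
                ((Multiplicative.toAdd v' : W) : V)) with h3 | h3
              · refine ⟨v * v', (he _ _ _ _).2 ?_, (he _ _ _ _).2 ?_⟩
                · change _ = ω ((Multiplicative.toAdd u : W) : V)
                    (((Multiplicative.toAdd v : W) : V) + ((Multiplicative.toAdd v' : W) : V))
                  rw [map_add, h3, add_zero]
                · change _ = ω ((Multiplicative.toAdd u' : W) : V)
                    (((Multiplicative.toAdd v : W) : V) + ((Multiplicative.toAdd v' : W) : V))
                  rw [map_add, h2, zero_add]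
              · refine ⟨v', (he _ _ _ _).2 ?_, rfl⟩
                rw [h0, h3]
            · refine ⟨v, rfl, (he _ _ _ _).2 ?_⟩
              rw [← h1, h2]
      · change Finite (Multiplicative W)
        infer_instance
      · change 8 ≤ Nat.card (Multiplicative W)
        have h1 : Nat.card (Multiplicative W) = Nat.card W :=
          Nat.card_congr Multiplicative.toAdd
        rw [h1, Module.natCard_eq_pow_finrank (K := ZMod 2), Nat.card_zmod]
        have h2 : Submodule.span (ZMod 2) {a}
            < Submodule.span (ZMod 2) {a} ⊔ Submodule.span (ZMod 2) {b} := by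
          refine lt_of_le_of_ne le_sup_left ?_
          intro h
          apply hbn
          rw [h]
          exact Submodule.mem_sup_right (Submodule.mem_span_singleton_self b)
        have h3 : Submodule.span (ZMod 2) {a} ⊔ Submodule.span (ZMod 2) {b} < W :=
          lt_of_le_of_ne hle (fun h => hWe h.symm)
        have h4 := Submodule.finrank_lt_finrank_of_lt h2
        have h5 := Submodule.finrank_lt_finrank_of_lt h3
        have h6 : finrank (ZMod 2) (Submodule.span (ZMod 2) {a}) = 1 := finrank_span_singleton ha0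
        have h7 : 3 ≤ finrank (ZMod 2) W := by omega
        calc 8 = 2 ^ 3 := by norm_num
          _ ≤ 2 ^ finrank (ZMod 2) W := Nat.pow_le_pow_right (by norm_num) h7
      · intro u hu
        apply Multiplicative.toAdd.injective
        apply Subtype.ext
        refine hnd _ (Multiplicative.toAdd u : W).2 (fun v hv => ?_)
        exact congrFun (hu (Multiplicative.ofAdd (⟨v, hv⟩ : W))) ⟨ω, hωA⟩
      · classical
        have h1 : {t : (QW (Submodule.span (ZMod 2) {ω}) W).Q |
            ∃ u v, (QW (Submodule.span (ZMod 2) {ω}) W).q u v = t}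
            = {(fun _ => 0 : Submodule.span (ZMod 2) {ω} → ZMod 2),
              (fun η => η.1 a b : Submodule.span (ZMod 2) {ω} → ZMod 2)} := by
          ext t
          constructor
          · rintro ⟨u, v, rfl⟩
            rcases z01 (ω ((Multiplicative.toAdd u : W) : V) ((Multiplicative.toAdd v : W) : V))
              with h0 | h0
            · left
              funext η
              rcases span_frm η.2 with h2 | h2
              · change η.1 _ _ = 0
                rw [h2]
                rfl
              · change η.1 _ _ = 0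
                rw [h2]
                exact h0
            · right
              funext η
              rcases span_frm η.2 with h2 | h2
              · change η.1 _ _ = η.1 a b
                rw [h2]
                rfl
              · change η.1 _ _ = η.1 a b
                rw [h2, hab]
                exact h0
          · rintro (rfl | rfl)
            · refine ⟨(1 : Multiplicative W), (1 : Multiplicative W), ?_⟩
              funext η
              change η.1 (0 : V) (0 : V) = 0
              rw [map_zero]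
            · exact ⟨Multiplicative.ofAdd (⟨a, ha⟩ : W), Multiplicative.ofAdd (⟨b, hb⟩ : W), rfl⟩
        rw [h1]
        refine Set.ncard_pair ?_
        intro h
        have h2 := congrFun h ⟨ω, hωA⟩
        simp only at h2
        rw [hab] at h2
        exact absurd h2 (by simp)
  · push Not at hex
    refine elem_triv _ _ ?_
    intro a ha b hb η hη
    rcases span_frm hη with rfl | rfl
    · rfl
    · exact z_ne' (hex a ha b hb)

theorem mem_rad_iff {A : Fam V} (hA : AltFam A) {v : V} :
    v ∈ rad A ↔ ∀ f ∈ supp A, f v = 0 := by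
  constructor
  · intro h f hf
    have h1 : supp A ≤ ann v := by
      rw [supp_le]
      intro ω hω a
      exact (hA ω hω).mem_ann (h ω hω) a
    exact h1 hf
  · intro h ω hω
    refine LinearMap.ext (fun w => ?_)
    rw [(hA ω hω).symm]
    exact h _ (sp_le_supp hω ⟨w, rfl⟩)

theorem rad_sup (A B : Fam V) : rad (A ⊔ B) = rad A ⊓ rad B := by
  ext v
  constructor
  · intro h
    exact ⟨fun ω hω => h ω (Submodule.mem_sup_left hω), fun ω hω => h ω (Submodule.mem_sup_right hω)⟩
  · rintro ⟨h1, h2⟩ ω hω
    obtain ⟨α, hα, β, hβ, rfl⟩ := Submodule.mem_sup.1 hω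
    rw [LinearMap.add_apply, h1 α hα, h2 β hβ, add_zero]

/-- products -/
theorem prod_case (A B : Fam V) (hA : AltFam A) (hB : AltFam B)
    (hdis : Disjoint (supp A) (supp B)) (ihA : PP' A) (ihB : PP' B) : PP' (A ⊔ B) := by
  have hAB : AltFam (A ⊔ B) := by
    intro ω hω
    obtain ⟨α, hα, β, hβ, rfl⟩ := Submodule.mem_sup.1 hω
    exact (hA α hα).add (hB β hβ)
  refine reduce _ hAB ?_
  intro W hW
  rw [rad_sup] at hW
  -- every vector is a sum of radical elements
  have hsum : ∀ v : V, ∃ u ∈ rad A, ∃ w ∈ rad B, u + w = v := by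
    intro v
    obtain ⟨u, hu1, hu2⟩ := exists_glue hdis 0 v
    refine ⟨u, (mem_rad_iff hA).2 (fun f hf => ?_), v + u, (mem_rad_iff hB).2 (fun f hf => ?_), ?_⟩
    · rw [hu1 f hf, map_zero]
    · rw [map_add, hu2 f hf, zadd]
    · rw [add_comm v u, Pool.Agent.W622.ETC.add_cancel_left']
  have hdec : ∀ v : V, ∃ w ∈ W, ∃ s ∈ rad A ⊓ rad B, w + s = v := by
    intro v
    have hv : v ∈ W ⊔ rad A ⊓ rad B := by
      rw [hW.sup_eq_top]
      exact Submodule.mem_top
    obtain ⟨w, hw, s, hs, h⟩ := Submodule.mem_sup.1 hv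
    exact ⟨w, hw, s, hs, h⟩
  have h1 : (W ⊓ rad B) ⊔ rad A = ⊤ := by
    rw [eq_top_iff]
    intro v _
    obtain ⟨u, hu, w, hw, rfl⟩ := hsum v
    obtain ⟨w', hw', s, hs, rfl⟩ := hdec w
    have h2 : w' ∈ rad B := by
      have h3 := (rad B).add_mem hw hs.2
      have h4 : w' + s + s = w' := Pool.Agent.W622.ETC.add_cancel' w' s
      rw [h4] at h3
      exact h3
    refine Submodule.mem_sup.2 ⟨w', ⟨hw', h2⟩, u + s, (rad A).add_mem hu hs.1, ?_⟩
    abel
  have h2 : (W ⊓ rad A) ⊔ rad B = ⊤ := by
    rw [eq_top_iff]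
    intro v _
    obtain ⟨u, hu, w, hw, rfl⟩ := hsum v
    obtain ⟨u', hu', s, hs, rfl⟩ := hdec u
    have h2 : u' ∈ rad A := by
      have h3 := (rad A).add_mem hu hs.1
      have h4 : u' + s + s = u' := Pool.Agent.W622.ETC.add_cancel' u' s
      rw [h4] at h3
      exact h3
    refine Submodule.mem_sup.2 ⟨u', ⟨hu', h2⟩, s + w, (rad B).add_mem hs.2 hw, ?_⟩
    abel
  have h3 : (W ⊓ rad B) ⊔ (W ⊓ rad A) = W := by
    refine le_antisymm (sup_le inf_le_left inf_le_left) ?_
    intro v hv
    have hv' : v ∈ (W ⊓ rad B) ⊔ rad A := by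
      rw [h1]
      exact Submodule.mem_top
    obtain ⟨w, hw, u, hu, rfl⟩ := Submodule.mem_sup.1 hv'
    refine Submodule.mem_sup.2 ⟨w, hw, u, ⟨?_, hu⟩, rfl⟩
    have h4 := W.add_mem hw.1 hv
    have h5 : w + (w + u) = u := Pool.Agent.W622.ETC.add_cancel_left' w u
    rw [h5] at h4
    exact h4
  have h4 : Disjoint (W ⊓ rad B) (W ⊓ rad A) := by
    rw [disjoint_iff, eq_bot_iff]
    rintro v ⟨⟨a1, a2⟩, ⟨-, a3⟩⟩
    have h5 : v ∈ W ⊓ (rad A ⊓ rad B) := ⟨a1, a3, a2⟩
    rw [hW.inf_eq_bot] at h5
    exact h5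
  exact Elem.iso _ _ (Elem.prod _ _ (ihA _ h1) (ihB _ h2))
    (iso_prod A B hA hB _ _ W h3 h4 inf_le_right inf_le_right)

/-- cones -/
theorem cone_case (A : Fam V) (p : Dl V) (Y : DSub V) (hA : AltFam A) (hY : supp A ≤ Y)
    (hp : p ∉ Y) (ihA : PP' A) : PP' (A ⊔ Submodule.map (wd p) Y) := by
  by_cases hY0 : Y = ⊥
  · rw [hY0, Submodule.map_bot, sup_bot_eq]
    exact ihA
  obtain ⟨g₀, hg₀, hg₀0⟩ := (Submodule.ne_bot_iff Y).1 hY0
  have hp0 : p ≠ 0 := by
    rintro rfl
    exact hp Y.zero_mem
  set C : Fam V := A ⊔ Submodule.map (wd p) Y with hC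
  have hAC : A ≤ C := le_sup_left
  have hgC : ∀ g ∈ Y, wd p g ∈ C := fun g hg =>
    Submodule.mem_sup_right (Submodule.mem_map_of_mem hg)
  have hCalt : AltFam C := by
    intro ω hω
    obtain ⟨α, hα, β, hβ, rfl⟩ := Submodule.mem_sup.1 hω
    obtain ⟨g, -, rfl⟩ := Submodule.mem_map.1 hβ
    exact (hA α hα).add (wd_alt p g)
  have hrad : ∀ v : V, v ∈ rad C ↔ (p v = 0 ∧ ∀ g ∈ Y, g v = 0) := by
    intro v
    constructor
    · intro h
      have hpv : p v = 0 := by
        by_contra hne
        have h1 : p v = 1 := z_ne hne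
        have h2 := h _ (hgC g₀ hg₀)
        rw [wd_apply, h1, one_smul] at h2
        have h3 : g₀ = g₀ v • p := Pool.Agent.W622.ETC.add_eq_zero'.1 h2
        rcases z01 (g₀ v) with h4 | h4
        · rw [h4, zero_smul] at h3
          exact hg₀0 h3
        · rw [h4, one_smul] at h3
          exact hp (h3 ▸ hg₀)
      refine ⟨hpv, fun g hg => ?_⟩
      have h2 := h _ (hgC g hg)
      rw [wd_apply, hpv, zero_smul, zero_add] at h2
      exact (smul_eq_zero.1 h2).resolve_right hp0
    · rintro ⟨h1, h2⟩ ω hω
      obtain ⟨α, hα, β, hβ, rfl⟩ := Submodule.mem_sup.1 hω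
      obtain ⟨g, hg, rfl⟩ := Submodule.mem_map.1 hβ
      have h3 : α v = 0 := (mem_rad_iff hA).2 (fun f hf => h2 f (hY hf)) α hα
      rw [LinearMap.add_apply, h3, wd_apply, h1, h2 g hg, zero_smul, zero_smul, add_zero, add_zero]
  refine reduce _ hCalt ?_
  intro W hW
  have hdec : ∀ v : V, ∃ w ∈ W, ∃ s ∈ rad C, w + s = v := by
    intro v
    have hv : v ∈ W ⊔ rad C := by
      rw [hW.sup_eq_top]
      exact Submodule.mem_top
    obtain ⟨w, hw, s, hs, h⟩ := Submodule.mem_sup.1 hv
    exact ⟨w, hw, s, hs, h⟩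
  obtain ⟨b, hb1, hb2⟩ := exists_coann hp
  obtain ⟨x, hx, s, hs, hxs⟩ := hdec b
  obtain ⟨hs1, hs2⟩ := (hrad s).1 hs
  have hpx : p x = 1 := by
    rw [← hxs, map_add, hs1, add_zero] at hb2
    exact hb2
  have hgx : ∀ g ∈ Y, g x = 0 := by
    intro g hg
    have h1 := hb1 g hg
    rw [← hxs, map_add, hs2 g hg, add_zero] at h1
    exact h1
  have hxrad : x ∈ rad A := (mem_rad_iff hA).2 (fun f hf => hgx f (hY hf))
  set W₀ : Submodule (ZMod 2) V := W ⊓ LinearMap.ker p with hW₀
  have hW₀p : ∀ v ∈ W₀, p v = 0 := fun v hv => LinearMap.mem_ker.1 hv.2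
  have hxn : x ∉ W₀ := by
    intro h
    have := hW₀p x h
    rw [hpx] at this
    exact absurd this (by simp)
  have hWe : W = W₀ ⊔ Submodule.span (ZMod 2) {x} := by
    refine le_antisymm ?_ (sup_le inf_le_left ?_)
    · intro w hw
      refine Submodule.mem_sup.2 ⟨w + p w • x, ⟨W.add_mem hw (W.smul_mem _ hx), ?_⟩, p w • x,
        Submodule.smul_mem _ _ (Submodule.mem_span_singleton_self x), ?_⟩
      · rw [SetLike.mem_coe, LinearMap.mem_ker, map_add, map_smul, hpx, smul_eq_mul, mul_one, zadd]
      · exact Pool.Agent.W622.ETC.add_cancel' w (p w • x)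
    · rw [Submodule.span_singleton_le_iff_mem]
      exact hx
  have hradle : rad C ≤ rad A := fun v hv ω hω => hv ω (hAC hω)
  have hW₀A : W₀ ⊔ rad A = ⊤ := by
    rw [eq_top_iff, ← hW.sup_eq_top]
    refine sup_le ?_ (hradle.trans le_sup_right)
    rw [hWe]
    refine sup_le le_sup_left ?_
    rw [Submodule.span_singleton_le_iff_mem]
    exact Submodule.mem_sup_right hxrad
  refine Elem.iso _ _ (Elem.ext _ (ihA W₀ hW₀A)) (iso_ext A C W₀ W x hxn hWe ?_)
  have hvalA : ∀ ω ∈ A, ∀ u v : V, ∀ α β : ZMod 2, ω (u + α • x) (v + β • x) = ω u v := by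
    intro ω hω u v α β
    have h1 : ω x = 0 := hxrad ω hω
    have h2 : ∀ w, ω w x = 0 := by
      intro w
      rw [(hA ω hω).symm, h1]
      rfl
    simp only [map_add, map_smul, LinearMap.add_apply, LinearMap.smul_apply, smul_eq_mul, h1, h2,
      LinearMap.zero_apply, mul_zero, add_zero]
  have hvalg : ∀ g ∈ Y, ∀ u ∈ W₀, ∀ v ∈ W₀, ∀ α β : ZMod 2,
      wd p g (u + α • x) (v + β • x) = g (β • u + α • v) := by
    intro g hg u hu v hv α β
    rw [wd_apply']
    simp only [map_add, map_smul, smul_eq_mul, hpx, hgx g hg, hW₀p u hu, hW₀p v hv]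
    ring
  intro u hu v hv c hc d hd α β γ δ
  constructor
  · intro h
    refine ⟨fun ω hω => ?_, ?_⟩
    · have h1 := h ω (hAC hω)
      rw [hvalA ω hω, hvalA ω hω] at h1
      exact h1
    · have h1 : β • u + α • v + (δ • c + γ • d) ∈ W₀ :=
        W₀.add_mem (W₀.add_mem (W₀.smul_mem _ hu) (W₀.smul_mem _ hv))
          (W₀.add_mem (W₀.smul_mem _ hc) (W₀.smul_mem _ hd))
      have h2 : β • u + α • v + (δ • c + γ • d) ∈ W ⊓ rad C := by
        refine ⟨h1.1, (hrad _).2 ⟨hW₀p _ h1, fun g hg => ?_⟩⟩
        have h3 := h _ (hgC g hg)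
        rw [hvalg g hg u hu v hv, hvalg g hg c hc d hd] at h3
        rw [map_add, h3, zadd]
      rw [hW.inf_eq_bot, Submodule.mem_bot] at h2
      exact Pool.Agent.W622.ETC.add_eq_zero'.1 h2
  · rintro ⟨h1, h2⟩ ω hω
    obtain ⟨η, hη, θ, hθ, rfl⟩ := Submodule.mem_sup.1 hω
    obtain ⟨g, hg, rfl⟩ := Submodule.mem_map.1 hθ
    have h3 := hvalg g hg u hu v hv α β
    have h4 := hvalg g hg c hc d hd γ δ
    have h5 := hvalA η hη u v α β
    have h6 := hvalA η hη c d γ δ
    rw [LinearMap.add_apply, LinearMap.add_apply, LinearMap.add_apply, LinearMap.add_apply,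
      h3, h4, h5, h6, h1 η hη, h2]

theorem all_cases {A : Fam V} (h : El A) : PP' A := by
  induction h with
  | zero =>
    intro W _
    refine elem_triv _ _ ?_
    intro a _ b _ ω hω
    rw [(Submodule.mem_bot _).1 hω]
    rfl
  | loc ω hω => exact loc_case ω hω
  | prod A B hA hB hdis ihA ihB => exact prod_case A B (el_alt hA) (el_alt hB) hdis ihA ihB
  | cone A p Y hA hY hp ihA => exact cone_case A p Y (el_alt hA) hY hp ihA

end

/-- families of elementary type give structures of elementary type -/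
theorem t_BRO : S_BRO := by
  intro V _ _ _ A hA
  have h := all_cases hA ⊤ (top_sup_eq _)
  refine Elem.iso _ _ h ?_
  let f : Multiplicative (⊤ : Submodule (ZMod 2) V) →* Multiplicative V :=
    AddMonoidHom.toMultiplicative ((⊤ : Submodule (ZMod 2) V).subtype.toAddMonoidHom)
  have hf : Function.Bijective f := by
    constructor
    · intro a b hab
      have h1 : ((Multiplicative.toAdd a : (⊤ : Submodule (ZMod 2) V)) : V)
          = ((Multiplicative.toAdd b : (⊤ : Submodule (ZMod 2) V)) : V) :=
        congrArg Multiplicative.toAdd hab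
      exact Multiplicative.toAdd.injective (Subtype.ext h1)
    · intro b
      exact ⟨Multiplicative.ofAdd (⟨Multiplicative.toAdd b, Submodule.mem_top⟩ :
        (⊤ : Submodule (ZMod 2) V)), rfl⟩
  exact iso_of_bij (QW A ⊤) (QD A) f hf rfl (fun _ _ _ _ => Iff.rfl)

end Pool.Agent.W571.ELT
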